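import Pool.Agent.H3.Ni2

open scoped Manifold ContDiff
open Pool.Agent.H3.Ps Pool.Agent.H3.Ni

namespace Pool.Agent.Results.MP_53eea8_gt.Unbounded

/-- A closed connected `3`-manifold with a complete indefinite metric for which almost every
orbit of the geodesic flow is unbounded, for every auxiliary Riemannian metric `h`. -/
theorem result : ∃ (M : Type) (_ : TopologicalSpace M) (_ : ChartedSpace (Fin 3 → ℝ) M),
    T2Space M ∧ CompactSpace M ∧ ConnectedSpace M ∧ IsManifold 𝓘(ℝ, Fin 3 → ℝ) ∞ M ∧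
      ∃ g : Form (Fin 3 → ℝ) M, IsMetric g ∧ IsIndefinite g ∧ IsGeodComplete g ∧
        (∃ h : Form (Fin 3 → ℝ) M, IsRiemannian h) ∧
        ∀ h : Form (Fin 3 → ℝ) M, IsRiemannian h →
          AlmostEvery (fun m v => ¬ BoundedOrbit g h m v) ∧
            ¬ AlmostEvery (fun m v => BoundedOrbit g h m v) :=
  ⟨M, inferInstance, inferInstance, inferInstance, inferInstance, inferInstance, inferInstance,
    gM, isMetric, indef, complete, ⟨hM, isRiem⟩, fun _ hh => ⟨ae_unb hh, not_ae hh⟩⟩

end Pool.Agent.Results.MP_53eea8_gt.Unbounded
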